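import Pool.Agent.Helper28.VF.Defs

/-!
# Packet H1: closed cochains on a plane map are exact

Rank count: the coboundaries `d0` (functions on darts to pairs of functions) and `d1` (pairs to
functions on vertices, edges and faces) satisfy `d1 ∘ d0 = 0`, the kernel of `d0` and the kernel
of the transpose of `d1` have dimension at most one, and Euler's formula gives exactness.
-/

namespace Helper75.VF

open Helper28.VF Finset

variable {D V E F : Type} [Fintype D] [Fintype V] [Fintype E] [Fintype F]
  [DecidableEq D] [DecidableEq V] [DecidableEq E] [DecidableEq F]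

/-- A function invariant under `σ` and `α` is constant. -/
theorem const_of_inv (M : PM D V E F) {X : Type} (g : D → X) (h1 : ∀ d, g (M.σ d) = g d)
    (h2 : ∀ d, g (M.α d) = g d) (d e : D) : g d = g e :=
  M.conn (fun d => g d = g e) ⟨e, rfl⟩ (fun d h => (h1 d).trans h) (fun d h => (h2 d).trans h) d

theorem fc_sigma (M : PM D V E F) (d : D) : M.fc (M.σ d) = M.fc (M.α d) := by
  rw [M.fc_iff]
  refine (Equiv.Perm.SameCycle.symm ⟨1, ?_⟩)
  simp [M.α_inv]

theorem vt_sigma (M : PM D V E F) (d : D) : M.vt (M.σ d) = M.vt d := by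
  rw [M.vt_iff]
  exact (Equiv.Perm.SameCycle.symm ⟨1, by simp⟩)

theorem ed_alpha (M : PM D V E F) (d : D) : M.ed (M.α d) = M.ed d :=
  ((M.ed_iff d (M.α d)).2 (Or.inr rfl)).symm

theorem fc_phi (M : PM D V E F) (d : D) : M.fc (M.σ (M.α d)) = M.fc d := by
  rw [fc_sigma, M.α_inv]

theorem fib_ed (M : PM D V E F) (d : D) :
    univ.filter (fun c => M.ed c = M.ed d) = {d, M.α d} := by
  ext c
  simp only [mem_filter, mem_univ, true_and, mem_insert, mem_singleton]
  rw [eq_comm, M.ed_iff]

theorem card_D (M : PM D V E F) : Fintype.card D = 2 * Fintype.card E := by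
  have h := Finset.card_eq_sum_card_fiberwise (f := M.ed) (s := (univ : Finset D))
    (t := (univ : Finset E)) (fun _ _ => by simp)
  rw [Finset.card_univ] at h
  rw [h]
  have h2 : ∀ e ∈ (univ : Finset E), (univ.filter (fun c => M.ed c = e)).card = 2 := by
    intro e _
    obtain ⟨d, rfl⟩ := M.ed_surj e
    rw [fib_ed]
    exact Finset.card_pair (M.α_ne d).symm
  rw [Finset.sum_congr rfl h2]
  simp [mul_comm]

variable (K : Type) [Field K]

/-- The first coboundary. -/
def d0 (M : PM D V E F) : (D → K) →ₗ[K] (D → K) × (D → K) where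
  toFun l := (fun d => l (M.σ d) - l d, fun d => l (M.α d) - l d)
  map_add' l l' := by
    ext d <;> simp <;> ring
  map_smul' c l := by
    ext d <;> simp <;> ring

/-- The second coboundary. -/
def d1 (M : PM D V E F) : (D → K) × (D → K) →ₗ[K] (V → K) × (E → K) × (F → K) where
  toFun p := (fun v => ∑ d ∈ univ.filter (fun d => M.vt d = v), p.1 d,
    fun e => ∑ d ∈ univ.filter (fun d => M.ed d = e), p.2 d,
    fun f => ∑ d ∈ univ.filter (fun d => M.fc d = f), (p.2 d + p.1 (M.α d)))
  map_add' p q := by
    refine Prod.ext ?_ (Prod.ext ?_ ?_)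
    · funext v
      simp [Finset.sum_add_distrib]
    · funext v
      simp [Finset.sum_add_distrib]
    · funext v
      simp only [Prod.fst_add, Prod.snd_add, Pi.add_apply]
      rw [← Finset.sum_add_distrib]
      exact Finset.sum_congr rfl fun d _ => by ring
  map_smul' c p := by
    refine Prod.ext ?_ (Prod.ext ?_ ?_)
    · funext v
      simp [Finset.mul_sum]
    · funext v
      simp [Finset.mul_sum]
    · funext v
      simp only [Prod.smul_fst, Prod.smul_snd, Pi.smul_apply, smul_eq_mul, RingHom.id_apply]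
      rw [Finset.mul_sum]
      exact Finset.sum_congr rfl fun d _ => by ring

theorem d1_d0 (M : PM D V E F) (l : D → K) : d1 K M (d0 K M l) = 0 := by
  refine Prod.ext ?_ (Prod.ext ?_ ?_)
  · funext v
    change ∑ d ∈ univ.filter (fun d => M.vt d = v), (l (M.σ d) - l d) = 0
    rw [Finset.sum_sub_distrib, sub_eq_zero]
    refine Finset.sum_equiv M.σ ?_ (fun _ _ => rfl)
    intro d
    simp [vt_sigma]
  · funext e
    change ∑ d ∈ univ.filter (fun d => M.ed d = e), (l (M.α d) - l d) = 0
    rw [Finset.sum_sub_distrib, sub_eq_zero]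
    refine Finset.sum_equiv M.α ?_ (fun _ _ => rfl)
    intro d
    simp [ed_alpha]
  · funext f
    change ∑ d ∈ univ.filter (fun d => M.fc d = f),
      ((l (M.α d) - l d) + (l (M.σ (M.α d)) - l (M.α d))) = 0
    have : ∀ d ∈ univ.filter (fun d => M.fc d = f),
        ((l (M.α d) - l d) + (l (M.σ (M.α d)) - l (M.α d))) = l (M.σ (M.α d)) - l d :=
      fun d _ => by ring
    rw [Finset.sum_congr rfl this, Finset.sum_sub_distrib, sub_eq_zero]
    refine Finset.sum_equiv (M.α.trans M.σ) ?_ (fun _ _ => rfl)
    intro d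
    simp [fc_phi]

theorem ker_d0 (M : PM D V E F) (e : D) : Module.finrank K (LinearMap.ker (d0 K M)) ≤ 1 := by
  have h := LinearMap.finrank_le_finrank_of_injective
    (f := (LinearMap.proj e : (D → K) →ₗ[K] K).comp (LinearMap.ker (d0 K M)).subtype) ?_
  · simpa using h
  · rw [injective_iff_map_eq_zero]
    rintro ⟨l, hl⟩ h
    have h0 : l e = 0 := h
    rw [LinearMap.mem_ker] at hl
    have h1 : ∀ d, l (M.σ d) = l d := fun d =>
      sub_eq_zero.1 (congrFun (congrArg Prod.fst hl) d)
    have h2 : ∀ d, l (M.α d) = l d := fun d =>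
      sub_eq_zero.1 (congrFun (congrArg Prod.snd hl) d)
    apply Subtype.ext
    funext d
    exact (const_of_inv M l h1 h2 d e).trans h0

theorem d1_single_fst (M : PM D V E F) (e : D) :
    d1 K M (Pi.single e 1, 0) = (Pi.single (M.vt e) 1, 0, Pi.single (M.fc (M.α e)) 1) := by
  refine Prod.ext ?_ (Prod.ext ?_ ?_)
  · funext v
    change ∑ d ∈ univ.filter (fun d => M.vt d = v), (Pi.single e (1 : K) : D → K) d = _
    rw [Finset.sum_pi_single']
    simp [Pi.single_apply, eq_comm]
  · funext v
    change ∑ d ∈ univ.filter (fun d => M.ed d = v), (0 : K) = 0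
    simp
  · funext f
    change ∑ d ∈ univ.filter (fun d => M.fc d = f),
      ((0 : K) + (Pi.single e (1 : K) : D → K) (M.α d)) = (Pi.single (M.fc (M.α e)) (1 : K) : F → K) f
    have h1 : ∀ d, (0 : K) + (Pi.single e (1 : K) : D → K) (M.α d)
        = (Pi.single (M.α e) (1 : K) : D → K) d := by
      intro d
      rw [zero_add, Pi.single_apply, Pi.single_apply]
      refine if_congr ?_ rfl rfl
      constructor
      · intro h
        rw [← h, M.α_inv]
      · intro h
        rw [h, M.α_inv]
    rw [Finset.sum_congr rfl fun d _ => h1 d, Finset.sum_pi_single']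
    simp [Pi.single_apply, eq_comm]

theorem d1_single_snd (M : PM D V E F) (e : D) :
    d1 K M (0, Pi.single e 1) = (0, Pi.single (M.ed e) 1, Pi.single (M.fc e) 1) := by
  refine Prod.ext ?_ (Prod.ext ?_ ?_)
  · funext v
    change ∑ d ∈ univ.filter (fun d => M.vt d = v), (0 : K) = 0
    simp
  · funext v
    change ∑ d ∈ univ.filter (fun d => M.ed d = v), (Pi.single e (1 : K) : D → K) d = _
    rw [Finset.sum_pi_single']
    simp [Pi.single_apply, eq_comm]
  · funext f
    change ∑ d ∈ univ.filter (fun d => M.fc d = f),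
      ((Pi.single e (1 : K) : D → K) d + (0 : K)) = (Pi.single (M.fc e) (1 : K) : F → K) f
    rw [Finset.sum_congr rfl fun d _ => add_zero _, Finset.sum_pi_single']
    simp [Pi.single_apply, eq_comm]

theorem ker_dual (M : PM D V E F) (c : D) :
    Module.finrank K (LinearMap.ker (d1 K M).dualMap) ≤ 1 := by
  let ev : Module.Dual K ((V → K) × (E → K) × (F → K)) →ₗ[K] K :=
    LinearMap.applyₗ ((0, 0, Pi.single (M.fc c) 1) : (V → K) × (E → K) × (F → K))
  have h := LinearMap.finrank_le_finrank_of_injective
    (f := ev.comp (LinearMap.ker (d1 K M).dualMap).subtype) ?_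
  · simpa using h
  · rw [injective_iff_map_eq_zero]
    rintro ⟨φ, hφ⟩ h
    have h0 : φ (0, 0, Pi.single (M.fc c) 1) = 0 := h
    rw [LinearMap.mem_ker] at hφ
    have hz : ∀ p, φ (d1 K M p) = 0 := fun p => LinearMap.congr_fun hφ p
    -- the three components
    set x : V → K := fun v => φ (Pi.single v 1, 0, 0) with hx
    set y : E → K := fun e => φ (0, Pi.single e 1, 0) with hy
    set z : F → K := fun f => φ (0, 0, Pi.single f 1) with hzz
    have e1 : ∀ d, x (M.vt d) + z (M.fc (M.α d)) = 0 := by
      intro d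
      have := hz (Pi.single d 1, 0)
      rw [d1_single_fst] at this
      rw [← this, hx, hzz, ← map_add]
      simp
    have e2 : ∀ d, y (M.ed d) + z (M.fc d) = 0 := by
      intro d
      have := hz (0, Pi.single d 1)
      rw [d1_single_snd] at this
      rw [← this, hy, hzz, ← map_add]
      simp
    have e3 : ∀ d, z (M.fc (M.α d)) = z (M.fc d) := by
      intro d
      have h1 := e2 d
      have h2 := e2 (M.α d)
      rw [ed_alpha] at h2
      exact add_left_cancel (h2.trans h1.symm)
    have e4 : ∀ d, z (M.fc (M.σ d)) = z (M.fc d) := by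
      intro d
      rw [fc_sigma, e3]
    have e5 : ∀ d, z (M.fc d) = 0 := fun d =>
      (const_of_inv M (fun d => z (M.fc d)) e4 e3 d c).trans h0
    have e6 : ∀ f, z f = 0 := by
      intro f
      obtain ⟨d, rfl⟩ := M.fc_surj f
      exact e5 d
    have e7 : ∀ e, y e = 0 := by
      intro e
      obtain ⟨d, rfl⟩ := M.ed_surj e
      have := e2 d
      rwa [e6, add_zero] at this
    have e8 : ∀ v, x v = 0 := by
      intro v
      obtain ⟨d, rfl⟩ := M.vt_surj v
      have := e1 d
      rwa [e6, add_zero] at this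
    apply Subtype.ext
    change φ = 0
    refine LinearMap.prod_ext ?_ (LinearMap.prod_ext ?_ ?_)
    · refine LinearMap.pi_ext' fun v => LinearMap.ext_ring ?_
      exact e8 v
    · refine LinearMap.pi_ext' fun v => LinearMap.ext_ring ?_
      exact e7 v
    · refine LinearMap.pi_ext' fun v => LinearMap.ext_ring ?_
      exact e6 v

/-- Packet H1. -/
theorem stmtH1 : StmtH1 := by
  intro D V E F _ _ _ _ _ _ _ _ M K _ s t hs ht hf
  have hE := M.euler
  have hF : 0 < Fintype.card D := by
    by_contra hcon
    have h0 : Fintype.card D = 0 := by omega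
    haveI : IsEmpty D := Fintype.card_eq_zero_iff.1 h0
    have hV0 : Fintype.card V = 0 := Fintype.card_eq_zero_iff.2
      ⟨fun v => by obtain ⟨d, _⟩ := M.vt_surj v; exact isEmptyElim d⟩
    have hF0 : Fintype.card F = 0 := Fintype.card_eq_zero_iff.2
      ⟨fun v => by obtain ⟨d, _⟩ := M.fc_surj v; exact isEmptyElim d⟩
    omega
  obtain ⟨c⟩ := Fintype.card_pos_iff.1 hF
  have hle : LinearMap.range (d0 K M) ≤ LinearMap.ker (d1 K M) := by
    rintro _ ⟨l, rfl⟩
    exact d1_d0 K M l
  have hn := card_D M
  have r0 := LinearMap.finrank_range_add_finrank_ker (d0 K M)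
  have r1 := LinearMap.finrank_range_add_finrank_ker (d1 K M)
  have r2 := LinearMap.finrank_range_add_finrank_ker (d1 K M).dualMap
  rw [LinearMap.finrank_range_dualMap_eq_finrank_range, Subspace.dual_finrank_eq] at r2
  simp only [Module.finrank_prod, Module.finrank_fintype_fun_eq_card] at r0 r1 r2
  have k0 := ker_d0 K M c
  have k1 := ker_dual K M c
  have heq : LinearMap.range (d0 K M) = LinearMap.ker (d1 K M) :=
    Submodule.eq_of_le_of_finrank_le hle (by omega)
  have hmem : (s, t) ∈ LinearMap.ker (d1 K M) := by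
    rw [LinearMap.mem_ker]
    refine Prod.ext ?_ (Prod.ext ?_ ?_)
    · funext v
      exact hs v
    · funext e
      obtain ⟨d, rfl⟩ := M.ed_surj e
      change ∑ c ∈ univ.filter (fun c => M.ed c = M.ed d), t c = 0
      rw [fib_ed, Finset.sum_pair (M.α_ne d).symm]
      exact ht d
    · funext f
      exact hf f
  rw [← heq] at hmem
  obtain ⟨l, hl⟩ := hmem
  refine ⟨l, fun d => ?_, fun d => ?_⟩
  · have := congrFun (congrArg Prod.fst hl) d
    have h : l (M.σ d) - l d = s d := this
    rw [← h]
    ring
  · have := congrFun (congrArg Prod.snd hl) d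
    have h : l (M.α d) - l d = t d := this
    rw [← h]
    ring

end Helper75.VF
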